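import Pool.Agent.J4H50.YJ.Stm2
import Pool.Agent.J4H94.YP.Cone

set_option autoImplicit false

/-! # Project YJ, (CH): the charts for the rule cone, with fixed names of the variables -/

namespace Pool.Agent.J4H94.YJ

open MvPowerSeries
open Pool.Agent.J4H94.YP Pool.Agent.J4H50.YJ
open Pool.Agent.J4H50.YP (deh)

variable {V : Type} [DecidableEq V] {i i₀ : V}

/-- the point of the cone, in the variables `Option {j // j ≠ i₀}` -/
noncomputable def xj (P : V → ℂ) (ε : {j : V // j ≠ i} ≃ {j : V // j ≠ i₀}) (l : V) :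
    MvPowerSeries (Option {j : V // j ≠ i₀}) ℂ :=
  if h : l = i then C (P i) else X (some (ε ⟨l, h⟩)) + C (P l)

theorem const_xj (P : V → ℂ) (ε : {j : V // j ≠ i} ≃ {j : V // j ≠ i₀}) (l : V) :
    constantCoeff (xj P ε l) = P l := by
  unfold xj
  split_ifs with h
  · rw [constantCoeff_C, h]
  · rw [map_add, constantCoeff_X, constantCoeff_C, zero_add]

/-- the tangent cone in the chart -/
theorem aeval_xj [Fintype V] (P : V → ℂ) (ε : {j : V // j ≠ i} ≃ {j : V // j ≠ i₀}) (H : MvPolynomial V ℂ) :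
    MvPolynomial.aeval (xj P ε) H =
      MvPowerSeries.rename some ((MvPolynomial.rename ε (deh P i H) :
        MvPolynomial {j : V // j ≠ i₀} ℂ) : MvPowerSeries {j : V // j ≠ i₀} ℂ) := by
  rw [MvPowerSeries.rename_coe]
  induction H using MvPolynomial.induction_on with
  | C c =>
    simp only [deh, MvPolynomial.aeval_C, MvPolynomial.algebraMap_eq, MvPolynomial.rename_C,
      MvPolynomial.coe_C]
    rfl
  | add p q hp hq =>
    simp only [deh, map_add, MvPolynomial.coe_add] at hp hq ⊢
    rw [hp, hq]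
  | mul_X p l hp =>
    simp only [deh, map_mul, MvPolynomial.coe_mul, MvPolynomial.aeval_X] at hp ⊢
    rw [hp]
    congr 1
    unfold xj
    split_ifs with h
    · rw [MvPolynomial.rename_C, MvPolynomial.rename_C, MvPolynomial.coe_C]
    · rw [map_add, map_add, MvPolynomial.rename_X, MvPolynomial.rename_X, MvPolynomial.rename_C,
        MvPolynomial.rename_C, MvPolynomial.coe_add, MvPolynomial.coe_X, MvPolynomial.coe_C]

theorem t_CH : S_CH := by
  intro V _ _ F d _ hF i₀ P i hP _ h1 ε
  classical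
  obtain ⟨M, hM⟩ : ∃ M, M = F.totalDegree + 1 := ⟨_, rfl⟩
  obtain ⟨u, hu⟩ : ∃ u : MvPowerSeries (Option {j : V // j ≠ i₀}) ℂ, u = ∑ k ∈ Finset.range M,
    X none ^ k * MvPolynomial.aeval (xj P ε) (MvPolynomial.homogeneousComponent (d + 1 + k) F) :=
    ⟨_, rfl⟩
  have hu0 : constantCoeff u ≠ 0 := by
    rw [hu, hM, Finset.sum_range_succ', map_add, map_sum]
    have : ∑ k ∈ Finset.range F.totalDegree, constantCoeff (X none ^ (k + 1) *
        MvPolynomial.aeval (xj P ε) (MvPolynomial.homogeneousComponent (d + 1 + (k + 1)) F) :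
        MvPowerSeries (Option {j : V // j ≠ i₀}) ℂ) = 0 := by
      apply Finset.sum_eq_zero
      intro k _
      rw [map_mul, map_pow, constantCoeff_X, zero_pow (by omega), zero_mul]
    rw [this, zero_add, pow_zero, one_mul, add_zero, const_aeval]
    have e : (fun l => constantCoeff (xj P ε l)) = P := funext fun l => const_xj P ε l
    rw [e]
    exact h1
  obtain ⟨v, hv0, hv⟩ := inv_unit u hu0
  change v * subst (AA v) u = 1 at hv
  obtain ⟨Z, hZ⟩ : ∃ Z : MvPowerSeries (Option {j : V // j ≠ i₀}) ℂ, Z = X none * v := ⟨_, rfl⟩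
  have hxi : ∀ l : V, subst (AA v) (xj P ε l) = xj P ε l := by
    intro l
    rw [← coe_substAlgHom (R := ℂ) (AA_has v)]
    have hC : ∀ c : ℂ, substAlgHom (R := ℂ) (AA_has v) (C c) = C c := fun c => AlgHom.commutes _ c
    unfold xj
    split_ifs with h
    · exact hC _
    · rw [map_add, hC, substAlgHom_X]
      rfl
  have hsu : subst (AA v) u = ∑ k ∈ Finset.range M, Z ^ k *
      MvPolynomial.aeval (xj P ε) (MvPolynomial.homogeneousComponent (d + 1 + k) F) := by
    rw [hu, ← coe_substAlgHom (R := ℂ) (AA_has v), map_sum]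
    apply Finset.sum_congr rfl
    intro k _
    rw [map_mul, map_pow, substAlgHom_X]
    have e1 : AA v none = Z := by rw [hZ]; rfl
    rw [e1]
    congr 1
    have e2 : ∀ G : MvPolynomial V ℂ, substAlgHom (R := ℂ) (AA_has v) (MvPolynomial.aeval (xj P ε) G) =
        MvPolynomial.aeval (fun l => substAlgHom (R := ℂ) (AA_has v) (xj P ε l)) G := by
      intro G
      exact MvPolynomial.comp_aeval_apply (xj P ε) (substAlgHom (R := ℂ) (AA_has v)) G
    rw [e2]
    congr 2
    funext l
    have := hxi l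
    rw [← coe_substAlgHom (R := ℂ) (AA_has v)] at this
    exact this
  -- the standard rows
  obtain ⟨Ψ, hΨ⟩ : ∃ Ψ : Option {j : V // j ≠ i₀} → MvPowerSeries (Option {j : V // j ≠ i₀}) ℂ,
    Ψ = fun o => Option.elim o (X none * v * C (P i))
      (fun j => X none * v * (C (P (ε.symm j)) + X (some j))) := ⟨_, rfl⟩
  obtain ⟨J, hJ, hdet⟩ := det_chart v hv0 (fun o => Option.elim o (P i) (fun j => P (ε.symm j)))
    (by simpa using hP) Ψ (by rw [hΨ]; rfl) (by intro j; rw [hΨ]; rfl)
  -- the permutation of the rows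
  let φ : Equiv.Perm (Option {j : V // j ≠ i₀}) :=
    ((Equiv.optionSubtypeNe i₀).trans (Equiv.optionSubtypeNe i).symm).trans (Equiv.optionCongr ε)
  have hrow : ∀ l, X none * (v * xj P ε (Equiv.optionSubtypeNe i₀ l)) = Ψ (φ l) := by
    intro l
    obtain ⟨L, hL⟩ : ∃ L, L = Equiv.optionSubtypeNe i₀ l := ⟨_, rfl⟩
    have hφ : φ l = Option.map ε ((Equiv.optionSubtypeNe i).symm L) := by rw [hL]; rfl
    rw [hφ, ← hL, hΨ]
    by_cases h : L = i
    · rw [h, Equiv.optionSubtypeNe_symm_self]
      simp only [Option.map_none, Option.elim_none]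
      unfold xj
      rw [dif_pos rfl, mul_assoc]
    · rw [Equiv.optionSubtypeNe_symm_of_ne h]
      simp only [Option.map_some, Option.elim_some]
      unfold xj
      rw [dif_neg h, Equiv.symm_apply_apply, mul_assoc, add_comm (C (P L))]
  refine ⟨constantCoeff v, fun l => v * xj P ε (Equiv.optionSubtypeNe i₀ l),
    ((Equiv.Perm.sign φ : ℤ) : MvPowerSeries (Option {j : V // j ≠ i₀}) ℂ) * J, v ^ d, hv0, ?_, ?_, ?_, ?_, ?_⟩
  · apply IsUnit.mul _ hJ
    rcases Int.units_eq_one_or (Equiv.Perm.sign φ) with h | h <;> rw [h] <;> simp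
  · apply IsUnit.pow
    rw [MvPowerSeries.isUnit_iff_constantCoeff]
    exact isUnit_iff_ne_zero.2 hv0
  · intro l
    rw [map_mul, const_xj]
  · have e1 : (Matrix.of fun l m => pderiv ℂ m (X none * (v * xj P ε (Equiv.optionSubtypeNe i₀ l)))) =
        (Matrix.of fun l m => pderiv ℂ m (Ψ l)).submatrix φ id := by
      ext l m
      rw [Matrix.submatrix_apply, Matrix.of_apply, Matrix.of_apply, hrow]
      rfl
    rw [e1, Matrix.det_permute, hdet]
    ring
  · have hs : HasSubst (fun l : Option {j : V // j ≠ i₀} =>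
        X none * (v * xj P ε (Equiv.optionSubtypeNe i₀ l))) := by
      apply hasSubst_of_constantCoeff_zero
      intro l
      simp
    rw [subst_coe, MvPolynomial.aeval_rename]
    have e1 : (fun l => X none * (v * xj P ε (Equiv.optionSubtypeNe i₀ l))) ∘ (Equiv.optionSubtypeNe i₀).symm =
        fun l => Z * xj P ε l := by
      funext l
      rw [hZ]
      simp only [Function.comp_apply, Equiv.apply_symm_apply]
      ring
    rw [e1, expand F d hF Z (xj P ε), ← hM, ← hsu]
    have e2 : Z * subst (AA v) u = X none := by rw [hZ, mul_assoc, hv, mul_one]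
    rw [e2, hZ, mul_pow, aeval_xj]
    ring

end Pool.Agent.J4H94.YJ
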